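import Mathlib

set_option autoImplicit false

/-! A simple subgroup whose conjugates are equal to it or commute with it. -/

namespace Pool.Agent.Lib.MP_162bbe_gt.Mw

theorem exists_simple (P : Type) [Group P] [Finite P] [Nontrivial P] :
    ∃ T : Subgroup P, IsSimpleGroup T ∧
      ∀ g : P, (∀ a ∈ T, g * a * g⁻¹ ∈ T) ∨ ∀ a ∈ T, ∀ b ∈ T, Commute (g * a * g⁻¹) b := by
  obtain ⟨N, ⟨hN0, hN⟩, hNm⟩ := (wellFounded_lt (α := Subgroup P)).has_min
    {N | N ≠ ⊥ ∧ N.Normal} ⟨⊤, top_ne_bot, inferInstance⟩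
  obtain ⟨T, ⟨hT0, hTN, hT⟩, hTm⟩ := (wellFounded_lt (α := Subgroup P)).has_min
    {T | T ≠ ⊥ ∧ T ≤ N ∧ ∀ n ∈ N, ∀ t ∈ T, n * t * n⁻¹ ∈ T}
    ⟨N, hN0, le_rfl, fun n _ t ht => hN.conj_mem t ht n⟩
  have hmin : ∀ S : Subgroup P, S ≤ T → (∀ n ∈ N, ∀ t ∈ S, n * t * n⁻¹ ∈ S) → S = ⊥ ∨ S = T :=
    fun S h1 h2 => by
      by_contra h
      push Not at h
      exact hTm S ⟨h.1, h1.trans hTN, h2⟩ (lt_of_le_of_ne h1 h.2)
  have key : ∀ g : P, (∀ a ∈ T, g * a * g⁻¹ ∈ T) ∨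
      ∀ a ∈ T, ∀ b ∈ T, Commute (g * a * g⁻¹) b := fun g => by
    have h0 : ∀ n ∈ N, ∀ c : P, g * c * g⁻¹ ∈ T → g * (n * c * n⁻¹) * g⁻¹ ∈ T := fun n hn c hc => by
      have := hT _ (hN.conj_mem n hn g) _ hc
      convert this using 1
      group
    rcases hmin (T ⊓ T.comap (MulAut.conj g).toMonoidHom) inf_le_left
      (fun n hn t ht => ⟨hT n hn t ht.1, h0 n hn t ht.2⟩) with h | h
    · refine Or.inr fun a ha b hb => ?_
      have h1 : a * (g⁻¹ * b * g) * a⁻¹ * (g⁻¹ * b * g)⁻¹ ∈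
          T ⊓ T.comap (MulAut.conj g).toMonoidHom := by
        refine ⟨?_, T.comap _ |>.mul_mem (h0 a (hTN ha) _ (by simpa [mul_assoc] using hb))
          (T.comap _ |>.inv_mem (by simpa [mul_assoc] using hb))⟩
        have h2 := hT _ (hN.conj_mem b (hTN hb) g⁻¹) _ (T.inv_mem ha)
        have h3 := T.mul_mem ha h2
        have h5 : a * (g⁻¹ * b * g) * a⁻¹ * (g⁻¹ * b * g)⁻¹ =
            a * (g⁻¹ * b * g⁻¹⁻¹ * a⁻¹ * (g⁻¹ * b * g⁻¹⁻¹)⁻¹) := by group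
        rw [h5]
        exact h3
      rw [h, Subgroup.mem_bot] at h1
      have h4 : g * a * g⁻¹ * b = g * (a * (g⁻¹ * b * g) * a⁻¹ * (g⁻¹ * b * g)⁻¹) * g⁻¹ *
          (b * (g * a * g⁻¹)) := by group
      rw [h1] at h4
      simpa [Commute, SemiconjBy] using h4
    · exact Or.inl fun a ha => (h.ge ha).2
  refine ⟨T, ?_, key⟩
  have := (Subgroup.nontrivial_iff_ne_bot T).2 hT0
  refine ⟨fun S hS => ?_⟩
  have h1 : Subgroup.normalClosure (T : Set P) = N := by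
    by_contra h
    refine hNm _ ⟨fun h2 => hT0 (le_bot_iff.1 (h2 ▸ Subgroup.le_normalClosure)), inferInstance⟩
      (lt_of_le_of_ne (Subgroup.normalClosure_le_normal hTN) h)
  have h2 : ∀ n ∈ N, ∀ t ∈ S.map T.subtype, n * t * n⁻¹ ∈ S.map T.subtype := by
    have h3 : N ≤ Subgroup.normalizer (S.map T.subtype : Set P) := by
      rw [← h1, Subgroup.normalClosure, Subgroup.closure_le]
      intro y hy
      obtain ⟨a, ha, hy⟩ := Group.mem_conjugatesOfSet_iff.1 hy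
      obtain ⟨g, rfl⟩ := isConj_iff.1 hy
      refine Subgroup.mem_normalizer_fintype ?_
      rintro _ ⟨s, hs, rfl⟩
      rcases key g with h | h
      · exact ⟨_, hS.conj_mem s hs ⟨_, h a ha⟩, rfl⟩
      · refine ⟨s, hs, ?_⟩
        exact eq_mul_inv_of_mul_eq (h a ha _ s.2).eq.symm
    exact fun n hn t ht => (Subgroup.mem_normalizer_iff.1 (h3 hn) t).1 ht
  rcases hmin _ (Subgroup.map_subtype_le S) h2 with h | h
  · exact Or.inl ((Subgroup.map_eq_bot_iff_of_injective S T.subtype_injective).1 h)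
  · refine Or.inr (eq_top_iff.2 fun t _ => ?_)
    obtain ⟨s, hs, h4⟩ := h.ge t.2
    exact (Subtype.ext h4 : s = t) ▸ hs

end Pool.Agent.Lib.MP_162bbe_gt.Mw
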