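import Pool.Agent.Lib.MP_162bbe_gt.TBlock
import Pool.Agent.Lib.MP_162bbe_gt.Mw.Grp

set_option autoImplicit false

/-! Tuples with a small orbit from a simple section. -/

namespace Pool.Agent.Lib.MP_162bbe_gt.Mw

open Finset MulAction Pool.Agent.Lib.MP_f61260_nt

variable {𝒢 X : Type} [Group 𝒢] [MulAction 𝒢 X]

lemma tup_of_orb {x : X} {d j n : ℕ} (hd : Orb (⊤ : Subgroup 𝒢) x d) (g : Fin (j + 1) → 𝒢)
    (hg : Function.Injective fun a => g a • x) (R : Finset X) (hR : #R ≤ n)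
    (h : ∀ σ : 𝒢, (∀ a : Fin j, σ • g a.succ • x = g a.succ • x) → σ • g 0 • x ∈ R) :
    Tup 𝒢 x (j + 1) (d ^ j * n) := by
  refine ⟨g, hg, ?_⟩
  have h1 := IdxLe.iInf fun a : Fin j => (hd.top_smul (g a.succ)).idx
  rw [prod_const, card_univ, Fintype.card_fin] at h1
  have h2 : Orb (⨅ a : Fin j, stabilizer 𝒢 (g a.succ • x)) (g 0 • x) n :=
    ⟨R, hR, fun σ hσ => h σ (Subgroup.mem_iInf.1 hσ)⟩
  refine idx_le (idx_tri h1 (h2.idx.restrict le_rfl le_rfl)) fun σ hσ => ?_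
  rw [Subgroup.mem_iInf]
  exact fun a => Fin.cases hσ.2 (Subgroup.mem_iInf.1 hσ.1) a

theorem tup_abs (x : X) (A : Set 𝒢)
    (hA : ∀ σ : 𝒢, ∀ a ∈ A, σ * a * σ⁻¹ ∈ A) {a : 𝒢} (ha : a ∈ A) (hax : a • x ≠ x) {M d : ℕ}
    (hR : ∀ b ∈ A, ∃ R : Finset X, #R ≤ M ∧
      ∀ c ∈ A, c • b • x = b • c • x ∨ c • x ∈ R ∧ c • b • x ∈ R)
    (hd : Orb (⊤ : Subgroup 𝒢) x d) : ∃ j ≤ 3, Tup 𝒢 x (j + 1) (d ^ j * (M + 2)) := by
  classical
  have hcj : ∀ σ : 𝒢, σ • x = x → (σ * a * σ⁻¹) • x = σ • a • x := fun σ hσ => by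
    rw [mul_smul, mul_smul, inv_smul_eq_iff.2 hσ.symm]
  by_cases h3 : ∃ b ∈ A, a • b • x = b • a • x ∧ b • x ≠ x ∧ b • x ≠ a • x ∧ a • b • x ≠ x
  · obtain ⟨b, hb, hab, hb1, hb2, e1⟩ := h3
    obtain ⟨R, hR1, hR2⟩ := hR b hb
    have e3 : a • b • x ≠ b • x := fun h => hax (by
      rw [hab] at h; simpa using h)
    refine ⟨3, le_rfl, tup_of_orb hd ![a * b, 1, a, b] ?_ (insert (a • b • x) R)
      ((card_insert_le _ _).trans (by omega)) fun σ h => ?_⟩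
    · refine List.nodup_ofFn.1 ?_
      simp [List.ofFn_succ, mul_smul, e1, e3, hb1, hb1.symm, hb2.symm, hax.symm]
    · have h0 : σ • x = x := by simpa using h 0
      have h1 : σ • a • x = a • x := h 1
      have h2 : σ • b • x = b • x := h 2
      have h4 : σ • (a * b) • x = (σ * a * σ⁻¹) • b • x := by
        conv_rhs => rw [← h2]
        simp [mul_smul]
      change σ • (a * b) • x ∈ _
      rw [h4, mem_insert]
      exact (hR2 _ (hA σ a ha)).imp (fun h5 => by rw [h5, hcj σ h0, h1, hab]) fun h5 => h5.2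
  · push Not at h3
    obtain ⟨R, hR1, hR2⟩ := hR a ha
    refine ⟨1, by omega, tup_of_orb hd ![a, 1] ?_ (insert (a • x) (insert (a⁻¹ • x) R))
      ((card_insert_le _ _).trans (Nat.succ_le_succ ((card_insert_le _ _).trans
        (Nat.succ_le_succ hR1)))) fun σ h => ?_⟩
    · refine List.nodup_ofFn.1 ?_
      simp [List.ofFn_succ, hax]
    · have h0 : σ • x = x := by simpa using h 0
      change σ • a • x ∈ _
      rw [mem_insert, mem_insert, ← hcj σ h0]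
      rcases hR2 _ (hA σ a ha) with h5 | h5
      · by_cases h6 : (σ * a * σ⁻¹) • x = a • x
        · exact Or.inl h6
        · refine Or.inr (Or.inl (eq_inv_smul_iff.2
            (h3 _ (hA σ a ha) h5.symm (fun h7 => hax ?_) h6)))
          rw [hcj σ h0] at h7
          rw [← smul_left_cancel_iff σ, h7, h0]
      · exact Or.inr (Or.inr h5.1)

theorem tup_sec {Q : Type} [Group Q] (x : X) (π : 𝒢 →* Q)
    (hπ : ∀ ν, π ν = 1 → ∀ g : 𝒢, ν • g • x = g • x) {d : ℕ} (hd : Orb (⊤ : Subgroup 𝒢) x d) :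
    (∃ j ≤ 3, Tup 𝒢 x (j + 1) (d ^ j * 2)) ∨
      ∃ (H : Subgroup Q) (T : Type) (_ : Group T) (_ : IsSimpleGroup T) (f : H →* T),
        Function.Surjective f ∧ (¬ ∀ u v : T, u * v = v * u) ∧
          ∀ M : ℕ, (∀ S : Subgroup T, S.index ≤ d → S.index ≤ M) →
            ∃ j ≤ 3, Tup 𝒢 x (j + 1) (d ^ j * (M + 2)) := by
  classical
  obtain ⟨R₀, hR₀, hR₁⟩ := id hd
  have hO : orbit 𝒢 x ⊆ R₀ := by
    rintro _ ⟨g, rfl⟩
    exact hR₁ g trivial
  have : Finite (orbit 𝒢 x) := (R₀.finite_toSet.subset hO).to_subtype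
  have hOd : Nat.card (orbit 𝒢 x) ≤ d := by
    rw [Nat.card_coe_set_eq]
    exact ((Set.ncard_le_ncard hO).trans (Set.ncard_coe_finset _).le).trans hR₀
  let P := (toPermHom 𝒢 (orbit 𝒢 x)).range
  let φ : 𝒢 →* P := (toPermHom 𝒢 (orbit 𝒢 x)).rangeRestrict
  let x₀ : orbit 𝒢 x := ⟨x, mem_orbit_self x⟩
  have hφs : Function.Surjective φ := MonoidHom.rangeRestrict_surjective _
  have hv : ∀ ν : 𝒢, ((φ ν • x₀ : orbit 𝒢 x) : X) = ν • x := fun ν => rfl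
  have hφ : ∀ ν, (∀ g : 𝒢, ν • g • x = g • x) → φ ν = 1 := fun ν h =>
    Subtype.ext (Equiv.ext fun ⟨_, g, rfl⟩ => Subtype.ext (h g))
  let ψ : π.range →* P := π.rangeRestrict.liftOfSurjective π.rangeRestrict_surjective
    ⟨φ, fun ν hν => hφ ν (hπ ν (congrArg Subtype.val hν))⟩
  have hψ : ∀ ν, ψ (π.rangeRestrict ν) = φ ν := fun ν =>
    MonoidHom.liftOfRightInverse_comp_apply _ _ _ _ ν
  have hψs : Function.Surjective ψ := fun p => let ⟨ν, h⟩ := hφs p; ⟨_, (hψ ν).trans h⟩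
  rcases subsingleton_or_nontrivial P with h0 | h0
  · refine Or.inl ⟨0, by omega, tup_of_orb hd (fun _ => 1)
      (fun a b _ => Subsingleton.elim (α := Fin 1) a b) {x} (by simp) fun σ _ => ?_⟩
    rw [one_smul, ← hv, Subsingleton.elim (φ σ) 1, one_smul, mem_singleton]
  obtain ⟨T, hT, key⟩ := exists_simple P
  let A : Set 𝒢 := {a | ∃ g, ∃ t ∈ T, φ a = g * t * g⁻¹}
  have hA : ∀ σ : 𝒢, ∀ a ∈ A, σ * a * σ⁻¹ ∈ A := by
    rintro σ a ⟨g, t, ht, h⟩
    refine ⟨φ σ * g, t, ht, ?_⟩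
    rw [map_mul, map_mul, map_inv, h]
    group
  obtain ⟨a, ha, hax⟩ : ∃ a ∈ A, a • x ≠ x := by
    obtain ⟨t, ht⟩ := exists_ne (1 : T)
    obtain ⟨u, hu⟩ := hφs t
    obtain ⟨g, hg⟩ : ∃ g : 𝒢, u • g • x ≠ g • x := by
      by_contra h
      push Not at h
      exact ht (Subtype.ext (hu.symm.trans (hφ u h)))
    refine ⟨g⁻¹ * u * g, ⟨(φ g)⁻¹, t, t.2, by rw [map_mul, map_mul, map_inv, hu, inv_inv]⟩, ?_⟩
    rwa [mul_smul, mul_smul, Ne, inv_smul_eq_iff]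
  have hc : ∀ u v : 𝒢, Commute (φ u) (φ v) → u • v • x = v • u • x := fun u v h => by
    rw [← mul_smul, ← mul_smul, ← hv, ← hv, map_mul, map_mul, h.eq]
  have hcomm : ∀ b ∈ A, ∃ g, ∀ c ∈ A, Commute (φ c) (φ b) ∨
      ∃ s t : T, φ c = g * s * g⁻¹ ∧ φ b = g * t * g⁻¹ := by
    rintro b ⟨g, t, ht, hb⟩
    refine ⟨g, ?_⟩
    rintro c ⟨g', s, hs, hc⟩
    have h2 : g' * s * g'⁻¹ = g * (g⁻¹ * g' * s * (g⁻¹ * g')⁻¹) * g⁻¹ := by group
    rcases key (g⁻¹ * g') with h | h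
    · exact Or.inr ⟨⟨_, h s hs⟩, ⟨t, ht⟩, hc.trans h2, hb⟩
    · left
      rw [hc, hb, h2]
      exact (h s hs t ht).map (MulAut.conj g)
  by_cases hab : ∀ u v : T, u * v = v * u
  · refine Or.inl (tup_abs (M := 0) x A hA ha hax (fun b hb => ?_) hd)
    obtain ⟨g, hg⟩ := hcomm b hb
    refine ⟨∅, le_rfl, fun c hc' => Or.inl (hc _ _ ((hg c hc').elim id ?_))⟩
    rintro ⟨s, t, h1, h2⟩
    rw [h1, h2]
    exact (show Commute (s : P) t from congrArg Subtype.val (hab s t)).map (MulAut.conj g)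
  · let H := (T.comap ψ).map π.range.subtype
    let e := (T.comap ψ).equivMapOfInjective π.range.subtype π.range.subtype_injective
    refine Or.inr ⟨H, T, inferInstance, hT, (ψ.subgroupComap T).comp e.symm.toMonoidHom,
      (ψ.subgroupComap_surjective_of_surjective T hψs).comp e.symm.surjective, hab,
      fun M hM => tup_abs x A hA ha hax (fun b hb => ?_) hd⟩
    obtain ⟨g, hg⟩ := hcomm b hb
    have h1 := hM (stabilizer T (g⁻¹ • x₀)) (by
      rw [index_stabilizer]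
      exact (Set.ncard_le_card _).trans hOd)
    rw [index_stabilizer, Set.ncard_eq_toFinset_card _ (Set.toFinite _)] at h1
    refine ⟨_, (card_image_le (f := fun y : orbit 𝒢 x => ((g • y : orbit 𝒢 x) : X))).trans h1,
      fun c hc' => (hg c hc').imp (hc _ _) ?_⟩
    rintro ⟨s, t, h2, h3⟩
    constructor
    · refine mem_image.2 ⟨_, (Set.Finite.mem_toFinset _).2 ⟨s, rfl⟩, ?_⟩
      rw [← hv, h2, mul_smul, mul_smul]
      rfl
    · refine mem_image.2 ⟨_, (Set.Finite.mem_toFinset _).2 ⟨s * t, rfl⟩, ?_⟩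
      rw [← mul_smul c, ← hv, map_mul, h2, h3,
        show g * s * g⁻¹ * (g * t * g⁻¹) = g * (s * t : T) * g⁻¹ by push_cast; group]
      rfl

end Pool.Agent.Lib.MP_162bbe_gt.Mw
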